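import Pool.Agent.Helper69.TL.PartI
import Pool.Agent.Helper69.TL.PartII
import Pool.Agent.Helper69.TL.TreeIso
import Pool.Agent.Helper69.TL.Transfer

/-!
Bernoulli bond percolation on the product of a `d`-regular tree `T`, `d ≥ 3`, with the two-sided and
with the one-sided path: the uniqueness thresholds coincide, and in fact for every `p` there is
almost surely exactly one infinite cluster on one product if and only if this holds on the other.
-/

set_option autoImplicit false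

open MeasureTheory Set Pool.Agent.Helper69.TL SimpleGraph

namespace Pool.Agent.Results.MP_b6f052_pr.ThresholdsEqual

theorem hasse_int_adj (h k : ℤ) : (hasse ℤ).Adj h k ↔ (k = h + 1 ∨ h = k + 1) := by
  rw [hasse_adj, Order.covBy_iff_add_one_eq, Order.covBy_iff_add_one_eq]
  constructor
  · rintro (h1 | h1)
    · exact Or.inl h1.symm
    · exact Or.inr h1.symm
  · rintro (h1 | h1)
    · exact Or.inl h1.symm
    · exact Or.inr h1.symm

theorem hasse_nat_adj (h k : ℕ) : (hasse ℕ).Adj h k ↔ (k = h + 1 ∨ h = k + 1) := by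
  rw [hasse_adj, Order.covBy_iff_add_one_eq, Order.covBy_iff_add_one_eq]
  constructor
  · rintro (h1 | h1)
    · exact Or.inl h1.symm
    · exact Or.inr h1.symm
  · rintro (h1 | h1)
    · exact Or.inl h1.symm
    · exact Or.inr h1.symm

theorem unique_int_iff {b : ℕ} {V : Type*} (T : SimpleGraph V)
    (φ : T ≃g treeGraph b) (p : unitInterval) :
    (∀ᵐ ω ∂(perc (T □ hasse ℤ) p), UniqueInfinite (openGraph (T □ hasse ℤ) ω)) ↔
      ∀ᵐ ω ∂(mu (Sym2 (X b)) p), Uniq univ ω := by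
  refine transfer (T □ hasse ℤ) (fun x => (φ x.1, x.2)) ?_ ?_ ?_ p
  · rintro ⟨u, h⟩ ⟨v, k⟩ he
    obtain ⟨h1, h2⟩ := Prod.mk.inj he
    exact Prod.ext (φ.injective h1) h2
  · rintro ⟨u, h⟩ ⟨v, k⟩
    rw [boxProd_adj, hasse_int_adj]
    unfold adj
    have h1 : tadj (φ u) (φ v) ↔ T.Adj u v := φ.map_rel_iff
    have h2 : φ u = φ v ↔ u = v := φ.injective.eq_iff
    simp only [h1, h2]
    tauto
  · ext ⟨u, h⟩
    simp only [mem_range]
    refine ⟨fun _ => mem_univ _, fun _ => ⟨(φ.symm u, h), ?_⟩⟩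
    simp

theorem unique_nat_iff {b : ℕ} {V : Type*} (T : SimpleGraph V)
    (φ : T ≃g treeGraph b) (p : unitInterval) :
    (∀ᵐ ω ∂(perc (T □ hasse ℕ) p), UniqueInfinite (openGraph (T □ hasse ℕ) ω)) ↔
      ∀ᵐ ω ∂(mu (Sym2 (X b)) p), Uniq (Ici 0) ω := by
  refine transfer (T □ hasse ℕ) (fun x => (φ x.1, (x.2 : ℤ))) ?_ ?_ ?_ p
  · rintro ⟨u, h⟩ ⟨v, k⟩ he
    obtain ⟨h1, h2⟩ := Prod.mk.inj he
    exact Prod.ext (φ.injective h1) (by exact_mod_cast h2)
  · rintro ⟨u, h⟩ ⟨v, k⟩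
    rw [boxProd_adj, hasse_nat_adj]
    unfold adj
    have h1 : tadj (φ u) (φ v) ↔ T.Adj u v := φ.map_rel_iff
    have h2 : φ u = φ v ↔ u = v := φ.injective.eq_iff
    have h3 : (k : ℤ) = h + 1 ↔ k = h + 1 := by exact_mod_cast Iff.rfl
    have h4 : (h : ℤ) = k + 1 ↔ h = k + 1 := by exact_mod_cast Iff.rfl
    have h5 : (h : ℤ) = k ↔ h = k := by exact_mod_cast Iff.rfl
    simp only [h1, h2, h3, h4, h5]
    tauto
  · ext ⟨u, h⟩
    simp only [mem_range]
    constructor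
    · rintro ⟨⟨v, k⟩, he⟩
      obtain ⟨_, h2⟩ := Prod.mk.inj he
      show (0 : ℤ) ≤ h
      rw [← h2]
      positivity
    · intro hh
      have hh' : (0 : ℤ) ≤ h := hh
      refine ⟨(φ.symm u, h.toNat), ?_⟩
      simp [Int.toNat_of_nonneg hh']

theorem unique_iff {d : ℕ} (hd : 3 ≤ d) {V : Type*} (T : SimpleGraph V) [T.LocallyFinite]
    (hT : T.IsTree) (hreg : T.IsRegularOfDegree d) (p : unitInterval) :
    (∀ᵐ ω ∂(perc (T □ hasse ℤ) p), UniqueInfinite (openGraph (T □ hasse ℤ) ω)) ↔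
      (∀ᵐ ω ∂(perc (T □ hasse ℕ) p), UniqueInfinite (openGraph (T □ hasse ℕ) ω)) := by
  obtain ⟨b, rfl⟩ : ∃ b, d = b + 1 := ⟨d - 1, by omega⟩
  obtain ⟨φ⟩ := tree_iso (by omega) T hT hreg
  rw [unique_int_iff T φ p, unique_nat_iff T φ p]
  constructor
  · intro h
    exact uniq_of_fat (by omega) (fat_of_uniq (by omega) h) (isUpperSet_Ici 0) (mem_Ici.mpr le_rfl)
  · intro h
    exact uniq_of_fat (by omega) (fat_of_uniq (by omega) h) isUpperSet_univ (mem_univ _)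

theorem result {d : ℕ} (hd : 3 ≤ d) {V : Type*} (T : SimpleGraph V) [T.LocallyFinite]
    (hT : T.IsTree) (hreg : T.IsRegularOfDegree d) :
    pu (T □ hasse ℤ) = pu (T □ hasse ℕ) ∧
      ∀ p : unitInterval,
        (∀ᵐ ω ∂(perc (T □ hasse ℤ) p), UniqueInfinite (openGraph (T □ hasse ℤ) ω)) ↔
        (∀ᵐ ω ∂(perc (T □ hasse ℕ) p), UniqueInfinite (openGraph (T □ hasse ℕ) ω)) := by
  refine ⟨?_, fun p => unique_iff hd T hT hreg p⟩
  unfold pu
  congr 1
  ext p
  constructor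
  · rintro ⟨h, h'⟩
    exact ⟨h, (unique_iff hd T hT hreg ⟨p, h⟩).mp h'⟩
  · rintro ⟨h, h'⟩
    exact ⟨h, (unique_iff hd T hT hreg ⟨p, h⟩).mpr h'⟩

end Pool.Agent.Results.MP_b6f052_pr.ThresholdsEqual
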